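import Mathlib

/-! LSP part D, block KLO: Kloosterman sums to arbitrary moduli by the fourth moment. -/

set_option autoImplicit false

namespace Pool.Agent.LSPD

open Complex Finset

/-- the Kloosterman sum -/
noncomputable def klS (q : ℕ) [NeZero q] (a b : ZMod q) : ℂ :=
  ∑ x : (ZMod q)ˣ, (ZMod.stdAddChar (N := q) (a * ((x⁻¹ : (ZMod q)ˣ) : ZMod q) + b * x) : ℂ)

section four

variable {q : ℕ} [NeZero q]

theorem klo_scale (a b : ZMod q) (s : (ZMod q)ˣ) :
    klS q (a * s) (b * ((s⁻¹ : (ZMod q)ˣ) : ZMod q)) = klS q a b := by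
  unfold klS
  refine Fintype.sum_equiv (Equiv.mulLeft (s⁻¹)) _ _ ?_
  intro x
  congr 1
  simp only [Equiv.coe_mulLeft, mul_inv_rev, inv_inv, Units.val_mul]
  ring

theorem klo_sq (a b : ZMod q) : (klS q a b) ^ 2 = ∑ x : (ZMod q)ˣ × (ZMod q)ˣ,
    (ZMod.stdAddChar (N := q) (a * (((x.1⁻¹ : (ZMod q)ˣ) : ZMod q) + ((x.2⁻¹ : (ZMod q)ˣ) : ZMod q)) +
      b * ((x.1 : ZMod q) + x.2)) : ℂ) := by
  rw [pow_two, klS, Finset.sum_mul_sum, ← Finset.univ_product_univ, Finset.sum_product]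
  refine Finset.sum_congr rfl fun x _ => Finset.sum_congr rfl fun y _ => ?_
  rw [← AddChar.map_add_eq_mul]
  congr 1; ring

theorem klo_four (a b : ZMod q) : ((‖klS q a b‖ ^ 4 : ℝ) : ℂ) =
    ∑ x : (ZMod q)ˣ × (ZMod q)ˣ, ∑ y : (ZMod q)ˣ × (ZMod q)ˣ,
    (ZMod.stdAddChar (N := q) (a * ((((x.1⁻¹ : (ZMod q)ˣ) : ZMod q) + ((x.2⁻¹ : (ZMod q)ˣ) : ZMod q)) -
      (((y.1⁻¹ : (ZMod q)ˣ) : ZMod q) + ((y.2⁻¹ : (ZMod q)ˣ) : ZMod q)))) : ℂ) *
      (ZMod.stdAddChar (N := q) (b * (((x.1 : ZMod q) + x.2) - ((y.1 : ZMod q) + y.2))) : ℂ) := by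
  have h1 : ((‖klS q a b‖ ^ 4 : ℝ) : ℂ) = (klS q a b) ^ 2 * (starRingEnd ℂ) ((klS q a b) ^ 2) := by
    rw [Complex.mul_conj, Complex.normSq_eq_norm_sq, norm_pow]
    push_cast; ring
  rw [h1, klo_sq, map_sum, Finset.sum_mul_sum]
  refine Finset.sum_congr rfl fun x _ => Finset.sum_congr rfl fun y _ => ?_
  rw [← AddChar.map_neg_eq_conj, ← AddChar.map_add_eq_mul, ← AddChar.map_add_eq_mul]
  congr 1; ring

theorem klo_sum_char (c : ZMod q) :
    ∑ a : ZMod q, (ZMod.stdAddChar (N := q) (a * c) : ℂ) = if c = 0 then (q : ℂ) else 0 := by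
  have h := AddChar.sum_mulShift (ψ := ZMod.stdAddChar (N := q)) c (ZMod.isPrimitive_stdAddChar q)
  rw [h, ZMod.card]
  split_ifs <;> simp

/-- the condition of the fourth moment -/
def kloC (x y : (ZMod q)ˣ × (ZMod q)ˣ) : Prop :=
  (((x.1⁻¹ : (ZMod q)ˣ) : ZMod q) + ((x.2⁻¹ : (ZMod q)ˣ) : ZMod q)) -
      (((y.1⁻¹ : (ZMod q)ˣ) : ZMod q) + ((y.2⁻¹ : (ZMod q)ˣ) : ZMod q)) = 0 ∧
    ((x.1 : ZMod q) + x.2) - ((y.1 : ZMod q) + y.2) = 0

open Classical in
theorem klo_moment : ∑ a : ZMod q, ∑ b : ZMod q, ‖klS q a b‖ ^ 4 =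
    (q : ℝ) ^ 2 * ((Finset.univ.filter (fun z : ((ZMod q)ˣ × (ZMod q)ˣ) × ((ZMod q)ˣ × (ZMod q)ˣ) =>
      kloC z.1 z.2)).card : ℝ) := by
  have h : ((∑ a : ZMod q, ∑ b : ZMod q, ‖klS q a b‖ ^ 4 : ℝ) : ℂ) =
      ∑ x : (ZMod q)ˣ × (ZMod q)ˣ, ∑ y : (ZMod q)ˣ × (ZMod q)ˣ,
      (if (((x.1⁻¹ : (ZMod q)ˣ) : ZMod q) + ((x.2⁻¹ : (ZMod q)ˣ) : ZMod q)) -
      (((y.1⁻¹ : (ZMod q)ˣ) : ZMod q) + ((y.2⁻¹ : (ZMod q)ˣ) : ZMod q)) = 0 then (q : ℂ) else 0) *
      (if ((x.1 : ZMod q) + x.2) - ((y.1 : ZMod q) + y.2) = 0 then (q : ℂ) else 0) := by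
    rw [Complex.ofReal_sum]
    simp_rw [Complex.ofReal_sum, klo_four]
    have h2 : ∀ a : ZMod q, (∑ b : ZMod q, ∑ x : (ZMod q)ˣ × (ZMod q)ˣ, ∑ y : (ZMod q)ˣ × (ZMod q)ˣ,
      (ZMod.stdAddChar (N := q) (a * ((((x.1⁻¹ : (ZMod q)ˣ) : ZMod q) + ((x.2⁻¹ : (ZMod q)ˣ) : ZMod q)) -
      (((y.1⁻¹ : (ZMod q)ˣ) : ZMod q) + ((y.2⁻¹ : (ZMod q)ˣ) : ZMod q)))) : ℂ) *
      (ZMod.stdAddChar (N := q) (b * (((x.1 : ZMod q) + x.2) - ((y.1 : ZMod q) + y.2))) : ℂ)) =
      ∑ x : (ZMod q)ˣ × (ZMod q)ˣ, ∑ y : (ZMod q)ˣ × (ZMod q)ˣ,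
      (ZMod.stdAddChar (N := q) (a * ((((x.1⁻¹ : (ZMod q)ˣ) : ZMod q) + ((x.2⁻¹ : (ZMod q)ˣ) : ZMod q)) -
      (((y.1⁻¹ : (ZMod q)ˣ) : ZMod q) + ((y.2⁻¹ : (ZMod q)ˣ) : ZMod q)))) : ℂ) *
      (if ((x.1 : ZMod q) + x.2) - ((y.1 : ZMod q) + y.2) = 0 then (q : ℂ) else 0) := by
      intro a
      rw [Finset.sum_comm]
      refine Finset.sum_congr rfl fun x _ => ?_
      rw [Finset.sum_comm]
      refine Finset.sum_congr rfl fun y _ => ?_
      rw [← Finset.mul_sum, klo_sum_char]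
    simp_rw [h2]
    rw [Finset.sum_comm]
    refine Finset.sum_congr rfl fun x _ => ?_
    rw [Finset.sum_comm]
    refine Finset.sum_congr rfl fun y _ => ?_
    rw [← Finset.sum_mul, klo_sum_char]
  have h3 : (∑ x : (ZMod q)ˣ × (ZMod q)ˣ, ∑ y : (ZMod q)ˣ × (ZMod q)ˣ,
      (if (((x.1⁻¹ : (ZMod q)ˣ) : ZMod q) + ((x.2⁻¹ : (ZMod q)ˣ) : ZMod q)) -
      (((y.1⁻¹ : (ZMod q)ˣ) : ZMod q) + ((y.2⁻¹ : (ZMod q)ˣ) : ZMod q)) = 0 then (q : ℂ) else 0) *
      (if ((x.1 : ZMod q) + x.2) - ((y.1 : ZMod q) + y.2) = 0 then (q : ℂ) else 0)) =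
      (((q : ℝ) ^ 2 * ((Finset.univ.filter (fun z : ((ZMod q)ˣ × (ZMod q)ˣ) × ((ZMod q)ˣ × (ZMod q)ˣ) =>
      kloC z.1 z.2)).card : ℝ) : ℝ) : ℂ) := by
    rw [← Fintype.sum_prod_type', Finset.card_filter]
    push_cast
    rw [Finset.mul_sum]
    refine Finset.sum_congr rfl fun z _ => ?_
    by_cases h1 : (((z.1.1⁻¹ : (ZMod q)ˣ) : ZMod q) + ((z.1.2⁻¹ : (ZMod q)ˣ) : ZMod q)) -
      (((z.2.1⁻¹ : (ZMod q)ˣ) : ZMod q) + ((z.2.2⁻¹ : (ZMod q)ˣ) : ZMod q)) = 0
    · by_cases h2 : ((z.1.1 : ZMod q) + z.1.2) - ((z.2.1 : ZMod q) + z.2.2) = 0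
      · have h : kloC z.1 z.2 := ⟨h1, h2⟩
        rw [if_pos h1, if_pos h2, if_pos h]; push_cast; ring
      · have h : ¬ kloC z.1 z.2 := fun h => h2 h.2
        rw [if_neg h2, if_neg h]; push_cast; ring
    · have h : ¬ kloC z.1 z.2 := fun h => h1 h.1
      rw [if_neg h1, if_neg h]; push_cast; ring
  rw [h3] at h
  exact_mod_cast h

/-- the number of residues divisible by `d` -/
theorem klo_mult {d : ℕ} (hd : d ∣ q) :
    (Finset.univ.filter (fun A : ZMod q => d ∣ A.val)).card ≤ q / d := by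
  have hd0 : 0 < d := Nat.pos_of_dvd_of_pos hd (NeZero.pos q)
  have h : (Finset.univ.filter (fun A : ZMod q => d ∣ A.val)) ⊆
      (Finset.range (q / d)).image (fun k => ((d * k : ℕ) : ZMod q)) := by
    intro A hA
    rw [Finset.mem_filter] at hA
    obtain ⟨k, hk⟩ := hA.2
    rw [Finset.mem_image]
    refine ⟨k, ?_, ?_⟩
    · rw [Finset.mem_range]
      have h1 := ZMod.val_lt A
      obtain ⟨e, he⟩ := hd
      rw [he, Nat.mul_div_cancel_left e hd0]
      rw [hk] at h1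
      exact Nat.lt_of_mul_lt_mul_left (a := d) (by omega)
    · rw [← hk, ZMod.natCast_zmod_val]
  calc _ ≤ _ := Finset.card_le_card h
    _ ≤ (Finset.range (q / d)).card := Finset.card_image_le
    _ = q / d := Finset.card_range _

open Classical in
/-- triples with product zero -/
theorem klo_triple : (Finset.univ.filter (fun z : ZMod q × ZMod q × ZMod q =>
    z.1 * z.2.1 * z.2.2 = 0)).card ≤ q ^ 2 * q.divisors.card ^ 2 := by
  have hq := NeZero.pos q
  have h : (Finset.univ.filter (fun z : ZMod q × ZMod q × ZMod q => z.1 * z.2.1 * z.2.2 = 0)) ⊆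
      (q.divisors ×ˢ q.divisors).biUnion (fun d => if d.1 * d.2 ∣ q then
        (Finset.univ.filter (fun A : ZMod q => d.1 ∣ A.val)) ×ˢ
        ((Finset.univ.filter (fun A : ZMod q => d.2 ∣ A.val)) ×ˢ
        (Finset.univ.filter (fun A : ZMod q => q / (d.1 * d.2) ∣ A.val))) else ∅) := by
    rintro ⟨A, B, C⟩ hz
    rw [Finset.mem_filter] at hz
    have hz2 : A * B * C = 0 := hz.2
    have h0 : q ∣ A.val * B.val * C.val := by
      rw [← ZMod.natCast_eq_zero_iff]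
      push_cast
      rw [ZMod.natCast_zmod_val, ZMod.natCast_zmod_val, ZMod.natCast_zmod_val]
      exact hz2
    set d₁ := Nat.gcd A.val q with hd1
    set q₁ := q / d₁ with hq1
    have hd1q : d₁ ∣ q := Nat.gcd_dvd_right _ _
    have hd1pos : 0 < d₁ := Nat.pos_of_dvd_of_pos hd1q hq
    have e1 : d₁ * q₁ = q := Nat.mul_div_cancel' hd1q
    have hq1pos : 0 < q₁ := Nat.div_pos (Nat.le_of_dvd hq hd1q) hd1pos
    set d₂ := Nat.gcd B.val q₁ with hd2
    have hd2q : d₂ ∣ q₁ := Nat.gcd_dvd_right _ _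
    have hd2pos : 0 < d₂ := Nat.pos_of_dvd_of_pos hd2q hq1pos
    have e2 : d₂ * (q₁ / d₂) = q₁ := Nat.mul_div_cancel' hd2q
    have hdd : d₁ * d₂ ∣ q := by
      rw [← e1]
      exact Nat.mul_dvd_mul_left d₁ hd2q
    rw [Finset.mem_biUnion]
    refine ⟨(d₁, d₂), ?_, ?_⟩
    · rw [Finset.mem_product, Nat.mem_divisors, Nat.mem_divisors]
      exact ⟨⟨hd1q, hq.ne'⟩, (dvd_mul_left d₂ d₁).trans hdd, hq.ne'⟩
    · rw [if_pos hdd, Finset.mem_product, Finset.mem_product, Finset.mem_filter, Finset.mem_filter,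
        Finset.mem_filter]
      refine ⟨⟨Finset.mem_univ _, Nat.gcd_dvd_left _ _⟩, ⟨Finset.mem_univ _, Nat.gcd_dvd_left _ _⟩,
        Finset.mem_univ _, ?_⟩
      have e3 : q / (d₁ * d₂) = q₁ / d₂ := by
        rw [← Nat.div_div_eq_div_mul]
      rw [e3]
      -- `q₁ ∣ B C`
      have h1 : q₁ ∣ B.val * C.val := by
        obtain ⟨a', ha'⟩ : d₁ ∣ A.val := Nat.gcd_dvd_left _ _
        have hcop : Nat.Coprime a' q₁ := by
          have : Nat.Coprime (A.val / d₁) (q / d₁) := Nat.coprime_div_gcd_div_gcd hd1pos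
          rwa [ha', Nat.mul_div_cancel_left a' hd1pos] at this
        have h2 : d₁ * q₁ ∣ d₁ * (a' * (B.val * C.val)) := by
          rw [e1]
          have : d₁ * (a' * (B.val * C.val)) = A.val * B.val * C.val := by
            rw [ha']; ring
          rw [this]
          exact h0
        have h3 : q₁ ∣ a' * (B.val * C.val) := Nat.dvd_of_mul_dvd_mul_left hd1pos h2
        exact (Nat.Coprime.symm hcop).dvd_of_dvd_mul_left h3
      obtain ⟨b', hb'⟩ : d₂ ∣ B.val := Nat.gcd_dvd_left _ _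
      have hcop : Nat.Coprime b' (q₁ / d₂) := by
        have : Nat.Coprime (B.val / d₂) (q₁ / d₂) := Nat.coprime_div_gcd_div_gcd hd2pos
        rwa [hb', Nat.mul_div_cancel_left b' hd2pos] at this
      have h2 : d₂ * (q₁ / d₂) ∣ d₂ * (b' * C.val) := by
        rw [e2]
        have : d₂ * (b' * C.val) = B.val * C.val := by
          rw [hb']; ring
        rw [this]
        exact h1
      have h3 : (q₁ / d₂) ∣ b' * C.val := Nat.dvd_of_mul_dvd_mul_left hd2pos h2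
      exact (Nat.Coprime.symm hcop).dvd_of_dvd_mul_left h3
  calc _ ≤ _ := Finset.card_le_card h
    _ ≤ ∑ d ∈ q.divisors ×ˢ q.divisors, q ^ 2 := by
        refine Finset.card_biUnion_le.trans (Finset.sum_le_sum fun d hd => ?_)
        rw [Finset.mem_product, Nat.mem_divisors, Nat.mem_divisors] at hd
        split_ifs with hdd
        · rw [Finset.card_product, Finset.card_product]
          have h1 := klo_mult hd.1.1
          have h2 := klo_mult hd.2.1
          have h3 := klo_mult (Nat.div_dvd_of_dvd hdd)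
          have hd1pos : 0 < d.1 := Nat.pos_of_dvd_of_pos hd.1.1 hq
          have hd2pos : 0 < d.2 := Nat.pos_of_dvd_of_pos hd.2.1 hq
          have e4 : q / (q / (d.1 * d.2)) = d.1 * d.2 := Nat.div_div_self hdd hq.ne'
          rw [e4] at h3
          calc _ ≤ (q / d.1) * ((q / d.2) * (d.1 * d.2)) :=
                Nat.mul_le_mul h1 (Nat.mul_le_mul h2 h3)
            _ = (d.1 * (q / d.1)) * (d.2 * (q / d.2)) := by ring
            _ = q * q := by rw [Nat.mul_div_cancel' hd.1.1, Nat.mul_div_cancel' hd.2.1]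
            _ = q ^ 2 := by ring
        · rw [Finset.card_empty]; exact Nat.zero_le _
    _ = q ^ 2 * q.divisors.card ^ 2 := by
        rw [Finset.sum_const, Finset.card_product, smul_eq_mul]; ring

open Classical in
theorem klo_two (c : ZMod q) : (Finset.univ.filter (fun t : ZMod q => 2 * t = c)).card ≤ 2 := by
  by_cases hne : (Finset.univ.filter (fun t : ZMod q => 2 * t = c)).Nonempty
  · obtain ⟨t₀, ht₀⟩ := hne
    rw [Finset.mem_filter] at ht₀
    have h : (Finset.univ.filter (fun t : ZMod q => 2 * t = c)) ⊆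
        {t₀, t₀ + ((q / 2 : ℕ) : ZMod q)} := by
      intro t ht
      rw [Finset.mem_filter] at ht
      rw [Finset.mem_insert, Finset.mem_singleton]
      have h1 : q ∣ 2 * (t - t₀).val := by
        rw [← ZMod.natCast_eq_zero_iff]
        push_cast
        rw [ZMod.natCast_zmod_val]
        linear_combination ht.2 - ht₀.2
      obtain ⟨k, hk⟩ := h1
      have h2 := ZMod.val_lt (t - t₀)
      have hq := NeZero.pos q
      have hk2 : k < 2 := by
        by_contra hcon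
        push Not at hcon
        have : q * 2 ≤ q * k := Nat.mul_le_mul_left q hcon
        omega
      have h3 : t = t₀ + (((t - t₀).val : ℕ) : ZMod q) := by
        rw [ZMod.natCast_zmod_val]; ring
      interval_cases k
      · left
        have : (t - t₀).val = 0 := by omega
        rw [this] at h3
        simpa using h3
      · right
        have : (t - t₀).val = q / 2 := by omega
        rw [this] at h3
        exact h3
    exact (Finset.card_le_card h).trans Finset.card_le_two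
  · rw [Finset.not_nonempty_iff_eq_empty.1 hne]
    simp

open Classical in
theorem klo_count : (Finset.univ.filter (fun z : ((ZMod q)ˣ × (ZMod q)ˣ) × ((ZMod q)ˣ × (ZMod q)ˣ) =>
      kloC z.1 z.2)).card ≤ 2 * (q ^ 2 * q.divisors.card ^ 2) := by
  have h := Finset.card_le_mul_card_image_of_maps_to
    (s := (Finset.univ.filter (fun z : ((ZMod q)ˣ × (ZMod q)ˣ) × ((ZMod q)ˣ × (ZMod q)ˣ) =>
      kloC z.1 z.2)))
    (t := (Finset.univ.filter (fun z : ZMod q × ZMod q × ZMod q => z.1 * z.2.1 * z.2.2 = 0)))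
    (f := fun z => ((z.2.1 : ZMod q) - z.1.1, (z.2.1 : ZMod q) - z.1.2, (z.1.1 : ZMod q) + z.1.2))
    ?_ 2 ?_
  · exact h.trans (Nat.mul_le_mul_left 2 klo_triple)
  · rintro ⟨⟨x₁, x₂⟩, ⟨y₁, y₂⟩⟩ hz
    rw [Finset.mem_filter] at hz
    rw [Finset.mem_filter]
    refine ⟨Finset.mem_univ _, ?_⟩
    obtain ⟨h1, h2⟩ := hz.2
    simp only at h1 h2 ⊢
    have e1 : (x₁ : ZMod q) * ((x₁⁻¹ : (ZMod q)ˣ) : ZMod q) = 1 := Units.mul_inv x₁
    have e2 : (x₂ : ZMod q) * ((x₂⁻¹ : (ZMod q)ˣ) : ZMod q) = 1 := Units.mul_inv x₂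
    have e3 : (y₁ : ZMod q) * ((y₁⁻¹ : (ZMod q)ˣ) : ZMod q) = 1 := Units.mul_inv y₁
    have e4 : (y₂ : ZMod q) * ((y₂⁻¹ : (ZMod q)ˣ) : ZMod q) = 1 := Units.mul_inv y₂
    have h3 : ((x₁ : ZMod q) + x₂) * (y₁ * y₂) = (y₁ + y₂) * (x₁ * x₂) := by
      linear_combination (x₁ * x₂ * y₁ * y₂ : ZMod q) * h1 - (x₂ * y₁ * y₂ : ZMod q) * e1 -
        (x₁ * y₁ * y₂ : ZMod q) * e2 + (x₁ * x₂ * y₂ : ZMod q) * e3 + (x₁ * x₂ * y₁ : ZMod q) * e4
    have h4 : (y₂ : ZMod q) = x₁ + x₂ - y₁ := by linear_combination -h2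
    rw [h4] at h3
    linear_combination -h3
  · rintro ⟨A, B, C⟩ _
    refine le_trans ?_ (klo_two (A + B + C))
    refine Finset.card_le_card_of_injOn (fun z => (z.2.1 : ZMod q)) ?_ ?_
    · rintro ⟨⟨x₁, x₂⟩, ⟨y₁, y₂⟩⟩ hz
      rw [Finset.mem_coe, Finset.mem_filter] at hz
      rw [Finset.mem_coe, Finset.mem_filter]
      refine ⟨Finset.mem_univ _, ?_⟩
      have h1 := hz.2
      simp only [Prod.mk.injEq] at h1
      simp only
      rw [← h1.1, ← h1.2.1, ← h1.2.2]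
      ring
    · rintro ⟨⟨x₁, x₂⟩, ⟨y₁, y₂⟩⟩ hz ⟨⟨x₁', x₂'⟩, ⟨y₁', y₂'⟩⟩ hz' hh
      rw [Finset.mem_coe, Finset.mem_filter, Finset.mem_filter] at hz hz'
      simp only at hh
      have h1 := hz.2
      have h1' := hz'.2
      have h2 := hz.1.2.2
      have h2' := hz'.1.2.2
      simp only [Prod.mk.injEq] at h1 h1'
      simp only at h2 h2'
      have a1 : (x₁ : ZMod q) = x₁' := by
        linear_combination hh - h1.1 + h1'.1
      have a2 : (x₂ : ZMod q) = x₂' := by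
        linear_combination hh - h1.2.1 + h1'.2.1
      have a3 : (y₂ : ZMod q) = y₂' := by
        linear_combination a1 + a2 - hh - h2 + h2'
      rw [Units.ext a1, Units.ext a2, Units.ext hh, Units.ext a3]

theorem klo_moment_le : ∑ a : ZMod q, ∑ b : ZMod q, ‖klS q a b‖ ^ 4 ≤
    2 * (q : ℝ) ^ 4 * (q.divisors.card : ℝ) ^ 2 := by
  classical
  rw [klo_moment]
  have h : ((Finset.univ.filter (fun z : ((ZMod q)ˣ × (ZMod q)ˣ) × ((ZMod q)ˣ × (ZMod q)ˣ) =>
      kloC z.1 z.2)).card : ℝ) ≤ ((2 * (q ^ 2 * q.divisors.card ^ 2) : ℕ) : ℝ) := by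
    exact_mod_cast klo_count (q := q)
  calc _ ≤ (q : ℝ) ^ 2 * ((2 * (q ^ 2 * q.divisors.card ^ 2) : ℕ) : ℝ) :=
        mul_le_mul_of_nonneg_left h (by positivity)
    _ = _ := by push_cast; ring

/-- the order of a kernel -/
theorem klo_ker {n : ℕ} [NeZero n] (hn : n ∣ q) :
    (Finset.univ.filter (fun l : (ZMod q)ˣ => ZMod.unitsMap hn l = 1)).card * n.totient ≤
      q.totient := by
  have hs := ZMod.unitsMap_surjective hn
  choose s hs' using hs
  have h : (Finset.univ.filter (fun l : (ZMod q)ˣ => ZMod.unitsMap hn l = 1) ×ˢ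
      (Finset.univ : Finset (ZMod n)ˣ)).card ≤ (Finset.univ : Finset (ZMod q)ˣ).card := by
    refine Finset.card_le_card_of_injOn (fun z => z.1 * s z.2) (fun _ _ => Finset.mem_univ _) ?_
    rintro ⟨k, m⟩ hz ⟨k', m'⟩ hz' hh
    rw [Finset.mem_coe, Finset.mem_product, Finset.mem_filter] at hz hz'
    have h1 : ZMod.unitsMap hn k = 1 := hz.1.2
    have h2 : ZMod.unitsMap hn k' = 1 := hz'.1.2
    simp only at hh
    have h3 : m = m' := by
      have := congrArg (ZMod.unitsMap hn) hh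
      rwa [map_mul, map_mul, h1, h2, one_mul, one_mul, hs', hs'] at this
    subst h3
    have h4 : k = k' := mul_right_cancel hh
    rw [h4]
  rw [Finset.card_product, Finset.card_univ, Finset.card_univ, ZMod.card_units_eq_totient,
    ZMod.card_units_eq_totient] at h
  exact h

/-- a stabiliser -/
theorem klo_stab (a b : ZMod q) (l : (ZMod q)ˣ) (h1 : a * l = a)
    (h2 : b * ((l⁻¹ : (ZMod q)ˣ) : ZMod q) = b) {n : ℕ} [NeZero n] (hn : n ∣ q)
    (hn2 : n = q / Nat.gcd (Nat.gcd a.val b.val) q) : ZMod.unitsMap hn l = 1 := by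
  have h3 : b * l = b := by
    have : (((l⁻¹ : (ZMod q)ˣ) : ZMod q)) * l = 1 := Units.inv_mul l
    linear_combination (-(l : ZMod q)) * h2 + b * this
  set g := Nat.gcd (Nat.gcd a.val b.val) q with hg
  have hgq : g ∣ q := Nat.gcd_dvd_right _ _
  have hq := NeZero.pos q
  have hgpos : 0 < g := Nat.pos_of_dvd_of_pos hgq hq
  have e1 : g * n = q := by rw [hn2]; exact Nat.mul_div_cancel' hgq
  -- g is a combination of a, b
  have h4 : (g : ZMod q) * (l - 1) = 0 := by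
    have i1 : ((Nat.gcd a.val b.val : ℕ) : ZMod q) * (l - 1) = 0 := by
      have := Nat.gcd_eq_gcd_ab a.val b.val
      have h5 := congrArg (Int.cast : ℤ → ZMod q) this
      push_cast at h5
      rw [ZMod.natCast_zmod_val, ZMod.natCast_zmod_val] at h5
      rw [h5]
      linear_combination ((a.val.gcdA b.val : ℤ) : ZMod q) * h1 + ((a.val.gcdB b.val : ℤ) : ZMod q) * h3
    have := Nat.gcd_eq_gcd_ab (Nat.gcd a.val b.val) q
    have h5 := congrArg (Int.cast : ℤ → ZMod q) this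
    push_cast at h5
    rw [ZMod.natCast_self, zero_mul, add_zero] at h5
    rw [← hg] at h5
    rw [h5]
    linear_combination (((Nat.gcd a.val b.val).gcdA q : ℤ) : ZMod q) * i1
  have h5 : q ∣ g * ((l : ZMod q) - 1).val := by
    rw [← ZMod.natCast_eq_zero_iff]
    push_cast
    rw [ZMod.natCast_zmod_val]
    exact h4
  have h6 : n ∣ ((l : ZMod q) - 1).val := by
    obtain ⟨k, hk⟩ := h5
    refine ⟨k, Nat.eq_of_mul_eq_mul_left hgpos ?_⟩
    rw [hk, ← mul_assoc, e1]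
  ext
  rw [ZMod.unitsMap_val, Units.val_one]
  have h7 : ((((l : ZMod q) - 1).val : ℕ) : ZMod n) = 0 := by
    rwa [ZMod.natCast_eq_zero_iff]
  have h8 : ((((l : ZMod q) - 1).val : ℕ) : ZMod n) = ZMod.castHom hn (ZMod n) ((l : ZMod q) - 1) := by
    conv_rhs => rw [← ZMod.natCast_zmod_val ((l : ZMod q) - 1)]
    rw [map_natCast]
  rw [h8, map_sub, map_one, sub_eq_zero] at h7
  exact h7

/-- `n ≤ φ(n) τ(n)` -/
theorem klo_tot (n : ℕ) (hn : 0 < n) : n ≤ n.totient * n.divisors.card := by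
  conv_lhs => rw [← Nat.sum_totient n]
  calc ∑ d ∈ n.divisors, d.totient ≤ ∑ d ∈ n.divisors, n.totient := by
        refine Finset.sum_le_sum fun d hd => ?_
        exact Nat.le_of_dvd (Nat.totient_pos.2 hn) (Nat.totient_dvd_of_dvd (Nat.dvd_of_mem_divisors hd))
    _ = _ := by rw [Finset.sum_const, smul_eq_mul, mul_comm]

theorem klo_orbit (a b : ZMod q) {n : ℕ} [NeZero n] (hnq : n ∣ q)
    (hn : n = q / Nat.gcd (Nat.gcd a.val b.val) q) :
    (q.totient : ℝ) * ‖klS q a b‖ ^ 4 ≤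
      ((Finset.univ.filter (fun l : (ZMod q)ˣ => ZMod.unitsMap hnq l = 1)).card : ℝ) *
        ∑ a : ZMod q, ∑ b : ZMod q, ‖klS q a b‖ ^ 4 := by
  classical
  have i1 : (q.totient : ℝ) * ‖klS q a b‖ ^ 4 =
      ∑ l : (ZMod q)ˣ, ‖klS q (a * l) (b * ((l⁻¹ : (ZMod q)ˣ) : ZMod q))‖ ^ 4 := by
    simp_rw [klo_scale]
    rw [Finset.sum_const, Finset.card_univ, ZMod.card_units_eq_totient, nsmul_eq_mul]
  rw [i1]
  have i2 : ∑ l : (ZMod q)ˣ, ‖klS q (a * l) (b * ((l⁻¹ : (ZMod q)ˣ) : ZMod q))‖ ^ 4 =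
      ∑ z : ZMod q × ZMod q, ∑ l ∈ Finset.univ.filter (fun l : (ZMod q)ˣ =>
        (a * (l : ZMod q), b * ((l⁻¹ : (ZMod q)ˣ) : ZMod q)) = z), ‖klS q z.1 z.2‖ ^ 4 := by
    rw [← Finset.sum_fiberwise (s := (Finset.univ : Finset (ZMod q)ˣ))
      (g := fun l : (ZMod q)ˣ => (a * (l : ZMod q), b * ((l⁻¹ : (ZMod q)ˣ) : ZMod q)))]
    refine Finset.sum_congr rfl fun z _ => Finset.sum_congr rfl fun l hl => ?_
    rw [Finset.mem_filter] at hl
    rw [← hl.2]
  rw [i2]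
  have i3 : ∑ a : ZMod q, ∑ b : ZMod q, ‖klS q a b‖ ^ 4 =
      ∑ z : ZMod q × ZMod q, ‖klS q z.1 z.2‖ ^ 4 := by
    rw [← Finset.univ_product_univ, Finset.sum_product]
  rw [i3, Finset.mul_sum]
  refine Finset.sum_le_sum fun z _ => ?_
  rw [Finset.sum_const, nsmul_eq_mul]
  refine mul_le_mul_of_nonneg_right ?_ (by positivity)
  have : (Finset.univ.filter (fun l : (ZMod q)ˣ =>
    (a * (l : ZMod q), b * ((l⁻¹ : (ZMod q)ˣ) : ZMod q)) = z)).card ≤
      (Finset.univ.filter (fun l : (ZMod q)ˣ => ZMod.unitsMap hnq l = 1)).card := by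
    by_cases hne : (Finset.univ.filter (fun l : (ZMod q)ˣ =>
      (a * (l : ZMod q), b * ((l⁻¹ : (ZMod q)ˣ) : ZMod q)) = z)).Nonempty
    · obtain ⟨l₀, hl₀⟩ := hne
      rw [Finset.mem_filter] at hl₀
      refine Finset.card_le_card_of_injOn (fun l => l * l₀⁻¹) ?_ ?_
      · intro l hl
        rw [Finset.mem_coe, Finset.mem_filter] at hl
        rw [Finset.mem_coe, Finset.mem_filter]
        refine ⟨Finset.mem_univ _, ?_⟩
        have j1 := hl.2.trans hl₀.2.symm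
        rw [Prod.mk.injEq] at j1
        have j2 : (l₀ : ZMod q) * ((l₀⁻¹ : (ZMod q)ˣ) : ZMod q) = 1 := Units.mul_inv l₀
        refine klo_stab a b _ ?_ ?_ hnq hn
        · rw [Units.val_mul]
          linear_combination ((l₀⁻¹ : (ZMod q)ˣ) : ZMod q) * j1.1 + a * j2
        · rw [mul_inv_rev, inv_inv, Units.val_mul]
          linear_combination (l₀ : ZMod q) * j1.2 + b * j2
      · intro l _ l' _ hll
        exact mul_right_cancel hll
    · rw [Finset.not_nonempty_iff_eq_empty.1 hne, Finset.card_empty]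
      exact Nat.zero_le _
  exact_mod_cast this

theorem klo_arith (φq φn K S M qq n g τ : ℝ) (hφ : 0 < φq) (hφn : 0 < φn) (hS : 0 ≤ S) (hn : 0 < n)
    (hτ : 0 ≤ τ)
    (hM : M ≤ 2 * qq ^ 4 * τ ^ 2) (hK : 0 ≤ K) (h1 : φq * S ≤ K * M) (h2 : K * φn ≤ φq)
    (h4 : n ≤ φn * τ) (e2 : g * n = qq) : S ≤ 2 * qq ^ 3 * g * τ ^ 3 := by
  have hM0 : 0 ≤ 2 * qq ^ 4 * τ ^ 2 := by positivity
  have h1' : φq * S ≤ K * (2 * qq ^ 4 * τ ^ 2) := h1.trans (mul_le_mul_of_nonneg_left hM hK)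
  have h3 : φn * S ≤ 2 * qq ^ 4 * τ ^ 2 := by
    have i1 : φq * (φn * S) ≤ φq * (2 * qq ^ 4 * τ ^ 2) := by
      calc φq * (φn * S) = φn * (φq * S) := by ring
        _ ≤ φn * (K * (2 * qq ^ 4 * τ ^ 2)) := mul_le_mul_of_nonneg_left h1' hφn.le
        _ = (K * φn) * (2 * qq ^ 4 * τ ^ 2) := by ring
        _ ≤ φq * (2 * qq ^ 4 * τ ^ 2) := mul_le_mul_of_nonneg_right h2 hM0
    exact le_of_mul_le_mul_left i1 hφ
  have h5 : n * S ≤ n * (2 * qq ^ 3 * g * τ ^ 3) := by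
    calc n * S ≤ (φn * τ) * S := mul_le_mul_of_nonneg_right h4 hS
      _ = τ * (φn * S) := by ring
      _ ≤ τ * (2 * qq ^ 4 * τ ^ 2) := mul_le_mul_of_nonneg_left h3 hτ
      _ = n * (2 * qq ^ 3 * g * τ ^ 3) := by
          rw [← e2]; ring
  exact le_of_mul_le_mul_left h5 hn

/-- **Kloosterman sums to arbitrary moduli**: `|S(a,b;q)|^4 ≤ 2 q^3 (a,b,q) τ(q)^3`. -/
theorem kloo_pr (a b : ZMod q) : ‖klS q a b‖ ^ 4 ≤
    2 * (q : ℝ) ^ 3 * (Nat.gcd (Nat.gcd a.val b.val) q : ℝ) * (q.divisors.card : ℝ) ^ 3 := by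
  classical
  have hq := NeZero.pos q
  have hgq : Nat.gcd (Nat.gcd a.val b.val) q ∣ q := Nat.gcd_dvd_right _ _
  have hgpos : 0 < Nat.gcd (Nat.gcd a.val b.val) q := Nat.pos_of_dvd_of_pos hgq hq
  obtain ⟨n, hn⟩ : ∃ n, n = q / Nat.gcd (Nat.gcd a.val b.val) q := ⟨_, rfl⟩
  have e1 : Nat.gcd (Nat.gcd a.val b.val) q * n = q := by rw [hn]; exact Nat.mul_div_cancel' hgq
  have hnpos : 0 < n := by rw [hn]; exact Nat.div_pos (Nat.le_of_dvd hq hgq) hgpos
  have : NeZero n := ⟨hnpos.ne'⟩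
  have hnq : n ∣ q := ⟨Nat.gcd (Nat.gcd a.val b.val) q, by rw [mul_comm]; exact e1.symm⟩
  have h4 : (n : ℝ) ≤ n.totient * q.divisors.card := by
    have i1 := klo_tot n hnpos
    have i2 : n.divisors.card ≤ q.divisors.card :=
      Finset.card_le_card (Nat.divisors_subset_of_dvd hq.ne' hnq)
    exact_mod_cast i1.trans (Nat.mul_le_mul_left _ i2)
  exact klo_arith (q.totient : ℝ) (n.totient : ℝ) _ _ _ (q : ℝ) (n : ℝ) _ (q.divisors.card : ℝ)
    (by exact_mod_cast Nat.totient_pos.2 hq) (by exact_mod_cast Nat.totient_pos.2 hnpos)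
    (pow_nonneg (norm_nonneg _) 4) (by exact_mod_cast hnpos) (Nat.cast_nonneg _) klo_moment_le
    (Nat.cast_nonneg _) (klo_orbit a b hnq hn) (by exact_mod_cast klo_ker hnq) h4
    (by exact_mod_cast e1)

/-! ### Ramanujan sums -/

theorem klo_char_nat {n : ℕ} [NeZero n] (j : ℕ) :
    (ZMod.stdAddChar (N := n) ((j : ℕ) : ZMod n) : ℂ) =
      Complex.exp (2 * Real.pi * Complex.I / n) ^ j := by
  have h : ((j : ℕ) : ZMod n) = ((j : ℤ) : ZMod n) := by push_cast; rfl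
  rw [h, ZMod.stdAddChar_coe, ← Complex.exp_nat_mul]
  congr 1
  push_cast
  ring

theorem klo_mu_sum (m : ℕ) :
    ∑ d ∈ m.divisors, (ArithmeticFunction.moebius d : ℂ) = if m = 1 then 1 else 0 := by
  have h := ArithmeticFunction.coe_moebius_mul_coe_zeta (R := ℂ)
  have h2 : ((ArithmeticFunction.moebius : ArithmeticFunction ℤ) * ArithmeticFunction.zeta :
      ArithmeticFunction ℂ) m = (1 : ArithmeticFunction ℂ) m := by rw [h]
  rw [ArithmeticFunction.coe_mul_zeta_apply, ArithmeticFunction.one_apply] at h2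
  exact h2

theorem klo_unit_sum (n : ℕ) [NeZero n] :
    ∑ u : (ZMod n)ˣ, (ZMod.stdAddChar (N := n) (u : ZMod n) : ℂ) =
      (ArithmeticFunction.moebius n : ℂ) := by
  classical
  have hn := NeZero.pos n
  have h1 : ∑ u : (ZMod n)ˣ, (ZMod.stdAddChar (N := n) (u : ZMod n) : ℂ) =
      ∑ j ∈ (Finset.range n).filter (fun j => Nat.Coprime j n),
        Complex.exp (2 * Real.pi * Complex.I / n) ^ j := by
    refine Finset.sum_bij' (fun u _ => (u : ZMod n).val)
      (fun j hj => ZMod.unitOfCoprime j (Finset.mem_filter.1 hj).2) ?_ ?_ ?_ ?_ ?_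
    · intro u _
      rw [Finset.mem_filter, Finset.mem_range]
      exact ⟨ZMod.val_lt _, ZMod.val_coe_unit_coprime u⟩
    · intro j _
      exact Finset.mem_univ _
    · intro u _
      ext
      rw [ZMod.coe_unitOfCoprime, ZMod.natCast_zmod_val]
    · intro j hj
      rw [Finset.mem_filter, Finset.mem_range] at hj
      rw [ZMod.coe_unitOfCoprime, ZMod.val_natCast_of_lt hj.1]
    · intro u _
      rw [← klo_char_nat, ZMod.natCast_zmod_val]
  rw [h1, Finset.sum_filter]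
  have h2 : ∀ j ∈ Finset.range n, (if Nat.Coprime j n then
      Complex.exp (2 * Real.pi * Complex.I / n) ^ j else 0) =
      ∑ d ∈ n.divisors, (ArithmeticFunction.moebius d : ℂ) *
        (if d ∣ j then Complex.exp (2 * Real.pi * Complex.I / n) ^ j else 0) := by
    intro j _
    have hg : 0 < Nat.gcd j n := Nat.gcd_pos_of_pos_right _ hn
    have i1 := klo_mu_sum (Nat.gcd j n)
    have i2 : (Nat.gcd j n).divisors = n.divisors.filter (fun d => d ∣ j) := by
      ext d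
      rw [Nat.mem_divisors, Finset.mem_filter, Nat.mem_divisors, Nat.dvd_gcd_iff]
      constructor
      · rintro ⟨⟨h1, h2⟩, _⟩
        exact ⟨⟨h2, hn.ne'⟩, h1⟩
      · rintro ⟨⟨h1, _⟩, h2⟩
        exact ⟨⟨h2, h1⟩, hg.ne'⟩
    rw [i2, Finset.sum_filter] at i1
    have i3 : ∑ d ∈ n.divisors, (ArithmeticFunction.moebius d : ℂ) *
        (if d ∣ j then Complex.exp (2 * Real.pi * Complex.I / n) ^ j else 0) =
        (∑ d ∈ n.divisors, if d ∣ j then (ArithmeticFunction.moebius d : ℂ) else 0) *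
          Complex.exp (2 * Real.pi * Complex.I / n) ^ j := by
      rw [Finset.sum_mul]
      refine Finset.sum_congr rfl fun d _ => ?_
      split_ifs <;> ring
    rw [i3, i1]
    unfold Nat.Coprime
    split_ifs <;> ring
  rw [Finset.sum_congr rfl h2, Finset.sum_comm]
  have h3 : ∀ d ∈ n.divisors, ∑ j ∈ Finset.range n, (ArithmeticFunction.moebius d : ℂ) *
        (if d ∣ j then Complex.exp (2 * Real.pi * Complex.I / n) ^ j else 0) =
        if d = n then (ArithmeticFunction.moebius n : ℂ) else 0 := by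
    intro d hd
    rw [Nat.mem_divisors] at hd
    obtain ⟨m, hm⟩ := hd.1
    have hd0 : 0 < d := Nat.pos_of_dvd_of_pos hd.1 hn
    have hm0 : 0 < m := by
      rcases Nat.eq_zero_or_pos m with h | h
      · rw [h, mul_zero] at hm; omega
      · exact h
    rw [← Finset.mul_sum, ← Finset.sum_filter]
    have i1 : ∑ j ∈ (Finset.range n).filter (fun j => d ∣ j),
        Complex.exp (2 * Real.pi * Complex.I / n) ^ j =
        ∑ i ∈ Finset.range m, Complex.exp (2 * Real.pi * Complex.I / m) ^ i := by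
      symm
      refine Finset.sum_bij' (fun i _ => d * i) (fun j _ => j / d) ?_ ?_ ?_ ?_ ?_
      · intro i hi
        rw [Finset.mem_range] at hi
        rw [Finset.mem_filter, Finset.mem_range, hm]
        exact ⟨Nat.mul_lt_mul_of_pos_left hi hd0, dvd_mul_right _ _⟩
      · intro j hj
        rw [Finset.mem_filter, Finset.mem_range, hm] at hj
        rw [Finset.mem_range]
        exact Nat.div_lt_of_lt_mul hj.1
      · intro i _
        exact Nat.mul_div_cancel_left i hd0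
      · intro j hj
        rw [Finset.mem_filter] at hj
        exact Nat.mul_div_cancel' hj.2
      · intro i _
        rw [pow_mul, ← Complex.exp_nat_mul (2 * Real.pi * Complex.I / n) d]
        congr 2
        rw [hm]
        have : (d : ℂ) ≠ 0 := by exact_mod_cast hd0.ne'
        have : (m : ℂ) ≠ 0 := by exact_mod_cast hm0.ne'
        push_cast
        field_simp
    rw [i1]
    by_cases hm1 : m = 1
    · have : d = n := by rw [hm, hm1, mul_one]
      rw [if_pos this, hm1, this]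
      simp
    · have : d ≠ n := by
        intro h
        rw [h] at hm
        exact hm1 (Nat.eq_of_mul_eq_mul_left hn (by rw [mul_one]; exact hm.symm))
      rw [if_neg this, (Complex.isPrimitiveRoot_exp m hm0.ne').geom_sum_eq_zero (by omega), mul_zero]
  rw [Finset.sum_congr rfl h3, Finset.sum_ite_eq' n.divisors n, if_pos]
  rw [Nat.mem_divisors]
  exact ⟨dvd_rfl, hn.ne'⟩

theorem klo_unit_sum' (n : ℕ) [NeZero n] (a : ZMod n) (ha : IsUnit a) :
    ∑ u : (ZMod n)ˣ, (ZMod.stdAddChar (N := n) (a * (u : ZMod n)) : ℂ) =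
      (ArithmeticFunction.moebius n : ℂ) := by
  rw [← klo_unit_sum n]
  obtain ⟨v, rfl⟩ := ha
  refine Fintype.sum_equiv (Equiv.mulLeft v) _ _ ?_
  intro u
  rw [Equiv.coe_mulLeft, Units.val_mul]

/-- **Ramanujan sums**: `|c_q(a)| ≤ (a, q)`. -/
theorem klo_ram_pr (a : ZMod q) : ‖klS q a 0‖ ≤ (Nat.gcd a.val q : ℝ) := by
  classical
  have hq := NeZero.pos q
  have hgq : Nat.gcd a.val q ∣ q := Nat.gcd_dvd_right _ _
  have hgpos : 0 < Nat.gcd a.val q := Nat.pos_of_dvd_of_pos hgq hq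
  obtain ⟨n, hn⟩ : ∃ n, n = q / Nat.gcd a.val q := ⟨_, rfl⟩
  obtain ⟨g, hg⟩ : ∃ g, g = Nat.gcd a.val q := ⟨_, rfl⟩
  have e1 : g * n = q := by rw [hn, hg]; exact Nat.mul_div_cancel' hgq
  have hnpos : 0 < n := by rw [hn]; exact Nat.div_pos (Nat.le_of_dvd hq hgq) hgpos
  have : NeZero n := ⟨hnpos.ne'⟩
  have hnq : n ∣ q := ⟨g, by rw [mul_comm]; exact e1.symm⟩
  rw [← hg] at hgpos hgq ⊢
  have hga : g ∣ a.val := by rw [hg]; exact Nat.gcd_dvd_left _ _
  obtain ⟨a₁, ha₁⟩ := hga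
  have hcop : Nat.Coprime a₁ n := by
    have : Nat.Coprime (a.val / g) (q / g) := by
      rw [hg]; exact Nat.coprime_div_gcd_div_gcd (by rw [← hg]; exact hgpos)
    rw [ha₁, Nat.mul_div_cancel_left a₁ hgpos] at this
    rwa [hn, ← hg]
  have h1 : klS q a 0 = ∑ u : (ZMod q)ˣ, (ZMod.stdAddChar (N := q) (a * (u : ZMod q)) : ℂ) := by
    unfold klS
    refine Fintype.sum_equiv (Equiv.inv _) _ _ ?_
    intro u
    rw [Equiv.inv_apply, zero_mul, add_zero]
  have h2 : ∀ u : (ZMod q)ˣ, (ZMod.stdAddChar (N := q) (a * (u : ZMod q)) : ℂ) =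
      (ZMod.stdAddChar (N := n) ((a₁ : ZMod n) * ((ZMod.unitsMap hnq u : (ZMod n)ˣ) : ZMod n)) : ℂ) := by
    intro u
    have i1 : a * (u : ZMod q) = ((g * (a₁ * (u : ZMod q).val) : ℕ) : ZMod q) := by
      push_cast
      rw [ZMod.natCast_zmod_val, ← mul_assoc]
      congr 1
      rw [← Nat.cast_mul, ← ha₁, ZMod.natCast_zmod_val]
    have i2 : (a₁ : ZMod n) * ((ZMod.unitsMap hnq u : (ZMod n)ˣ) : ZMod n) =
        ((a₁ * (u : ZMod q).val : ℕ) : ZMod n) := by
      rw [ZMod.unitsMap_val]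
      push_cast
      congr 1
      rw [ZMod.natCast_val]
    rw [i1, i2, klo_char_nat, klo_char_nat, pow_mul,
      ← Complex.exp_nat_mul (2 * Real.pi * Complex.I / q) g]
    congr 2
    rw [← e1]
    have : (g : ℂ) ≠ 0 := by exact_mod_cast hgpos.ne'
    have : (n : ℂ) ≠ 0 := by exact_mod_cast hnpos.ne'
    push_cast
    field_simp
  rw [h1, Finset.sum_congr rfl fun u _ => h2 u]
  -- the fibres
  rw [← Finset.sum_fiberwise (s := (Finset.univ : Finset (ZMod q)ˣ))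
    (g := fun u : (ZMod q)ˣ => ZMod.unitsMap hnq u)]
  have h3 : ∀ v : (ZMod n)ˣ, ∑ u ∈ Finset.univ.filter (fun u : (ZMod q)ˣ => ZMod.unitsMap hnq u = v),
      (ZMod.stdAddChar (N := n) ((a₁ : ZMod n) * ((ZMod.unitsMap hnq u : (ZMod n)ˣ) : ZMod n)) : ℂ) =
      ((Finset.univ.filter (fun l : (ZMod q)ˣ => ZMod.unitsMap hnq l = 1)).card : ℂ) *
        (ZMod.stdAddChar (N := n) ((a₁ : ZMod n) * (v : ZMod n)) : ℂ) := by
    intro v
    have i1 : ∀ u ∈ Finset.univ.filter (fun u : (ZMod q)ˣ => ZMod.unitsMap hnq u = v),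
      (ZMod.stdAddChar (N := n) ((a₁ : ZMod n) * ((ZMod.unitsMap hnq u : (ZMod n)ˣ) : ZMod n)) : ℂ) =
      (ZMod.stdAddChar (N := n) ((a₁ : ZMod n) * (v : ZMod n)) : ℂ) := by
      intro u hu
      rw [(Finset.mem_filter.1 hu).2]
    rw [Finset.sum_congr rfl i1, Finset.sum_const, nsmul_eq_mul]
    congr 1
    have i2 : (Finset.univ.filter (fun u : (ZMod q)ˣ => ZMod.unitsMap hnq u = v)).card =
        (Finset.univ.filter (fun l : (ZMod q)ˣ => ZMod.unitsMap hnq l = 1)).card := by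
      obtain ⟨w, hw⟩ := ZMod.unitsMap_surjective hnq v
      refine Finset.card_bij' (fun u _ => u * w⁻¹) (fun l _ => l * w) ?_ ?_ ?_ ?_
      · intro u hu
        rw [Finset.mem_filter] at hu ⊢
        refine ⟨Finset.mem_univ _, ?_⟩
        rw [map_mul, map_inv, hu.2, hw, mul_inv_cancel]
      · intro l hl
        rw [Finset.mem_filter] at hl ⊢
        refine ⟨Finset.mem_univ _, ?_⟩
        rw [map_mul, hl.2, hw, one_mul]
      · intro u _
        exact inv_mul_cancel_right u w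
      · intro l _
        exact mul_inv_cancel_right l w
    rw [i2]
  rw [Finset.sum_congr rfl fun v _ => h3 v, ← Finset.mul_sum, klo_unit_sum' n (a₁ : ZMod n)
    ((ZMod.isUnit_iff_coprime a₁ n).2 hcop), norm_mul]
  have h4 : ‖(ArithmeticFunction.moebius n : ℂ)‖ ≤ 1 := by
    rw [Complex.norm_intCast]
    exact_mod_cast ArithmeticFunction.abs_moebius_le_one (n := n)
  have h5 : (Finset.univ.filter (fun l : (ZMod q)ˣ => ZMod.unitsMap hnq l = 1)).card ≤ g := by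
    refine le_trans (b := (Finset.univ.filter (fun A : ZMod q => n ∣ A.val)).card) ?_ ?_
    · refine Finset.card_le_card_of_injOn (fun l : (ZMod q)ˣ => (l : ZMod q) - 1) ?_ ?_
      · intro l hl
        rw [Finset.mem_coe, Finset.mem_filter] at hl
        rw [Finset.mem_coe, Finset.mem_filter]
        refine ⟨Finset.mem_univ _, ?_⟩
        rw [← ZMod.natCast_eq_zero_iff]
        have h8 : ((((l : ZMod q) - 1).val : ℕ) : ZMod n) =
            ZMod.castHom hnq (ZMod n) ((l : ZMod q) - 1) := by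
          conv_rhs => rw [← ZMod.natCast_zmod_val ((l : ZMod q) - 1)]
          rw [map_natCast]
        rw [h8, map_sub, map_one, sub_eq_zero]
        have := congrArg (fun x : (ZMod n)ˣ => (x : ZMod n)) hl.2
        rw [ZMod.unitsMap_val, Units.val_one] at this
        exact this
      · intro l _ l' _ hll
        simp only at hll
        exact Units.ext (by linear_combination hll)
    · refine (klo_mult hnq).trans (le_of_eq ?_)
      rw [← e1, Nat.mul_div_cancel _ hnpos]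
  rw [Complex.norm_natCast]
  have h6 : ((Finset.univ.filter (fun l : (ZMod q)ˣ => ZMod.unitsMap hnq l = 1)).card : ℝ) ≤ g := by
    exact_mod_cast h5
  calc _ ≤ (g : ℝ) * 1 := mul_le_mul h6 h4 (norm_nonneg _) (Nat.cast_nonneg _)
    _ = g := mul_one _

end four

end Pool.Agent.LSPD
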